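import Mathlib
import Pool.Agent.H343R2.Variance

namespace Pool.Agent.Results.MP_2a816b_nt.VarianceLower

/-- `ψ(x; H)`, the sum of `Λ(n)` over the integers `n ≥ 1` with `x - H/2 ≤ n ≤ x + H/2`. -/
noncomputable def psiShort (x H : ℝ) : ℝ :=
  ∑' n : ℕ, if 1 ≤ n ∧ x - H / 2 ≤ (n : ℝ) ∧ (n : ℝ) ≤ x + H / 2 then
    ArithmeticFunction.vonMangoldt n else 0

lemma psiShort_eq (x H : ℝ) : psiShort x H = H343.psiI x H := by
  unfold psiShort H343.psiI
  congr 1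
  funext n
  rcases Nat.eq_zero_or_pos n with hn | hn
  · subst hn
    simp
  · have h1 : 1 ≤ n := hn
    simp [h1]

/-- Unconditional lower bound for the variance of primes in short intervals. -/
theorem result (ε : ℝ) (hε : 0 < ε) : ∃ X₀ : ℝ, ∀ X H : ℝ, X₀ ≤ X → 1 ≤ H →
    H ≤ X ^ (1 / 3 : ℝ) →
    H * ((1 / 2) * Real.log (X / H ^ 3) - ε * Real.log X) ≤
      (1 / X) * ∫ x in (1 : ℝ)..X, |psiShort x H - H| ^ 2 := by
  obtain ⟨X0, hX0⟩ := H343.variance_lower_one ε hε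
  refine ⟨max X0 1, fun X H hX h1 h2 => ?_⟩
  have hX1 : 1 ≤ X := (le_max_right _ _).trans hX
  have hX' : 0 < X := by linarith
  have h3 := hX0 X H ((le_max_left _ _).trans hX) h1 h2
  have h4 : ∫ x in (1 : ℝ)..X, |psiShort x H - H| ^ 2 =
      ∫ y in (1 : ℝ)..X, (H343.psiI y H - H) ^ 2 := by
    congr 1
    funext y
    rw [sq_abs, psiShort_eq]
  rw [h4]
  set I : ℝ := ∫ y in (1 : ℝ)..X, (H343.psiI y H - H) ^ 2
  have h5 : (1 / X) * I = I / X := by ring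
  rw [h5, le_div_iff₀ hX']
  linarith

end Pool.Agent.Results.MP_2a816b_nt.VarianceLower
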